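import Pool.Agent.H719R3.BK.EllB

/-!
# MP_aa14e2_an: Birkhoff's conjecture for tables whose exterior map is a Laurent polynomial

`Ω ⊂ ℂ` is a bounded strictly convex domain whose boundary is the image of the unit circle under
`R z = a z + ∑_{k ≤ N} b_k z^{-k}`, `a ≠ 0`, `R' ≠ 0` on the circle.  (If `R` is injective outside
the disc it is the exterior conformal map; this is not needed.  The class contains all ellipses,
`N = 1`, and is dense.)

Assume that a collar of the boundary inside `Ω` is filled exactly by disjoint nested boundaries of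
convex caustics (`CausticCollar`, the hypothesis of `S02713`), or only that for some `n` there are
infinitely many closed billiard polygons with `n` vertices (`Polygon`), for instance one rational
caustic.  Then the boundary is an ellipse.
-/

open Pool.Agent.H719R3.BK Pool.Agent.H719R3.BG

theorem Pool.Agent.Results.MP_aa14e2_an.ExteriorLaurentMap.result
    (Ω : Set ℂ) (hΩ : IsOpen Ω) (hc : Convex ℝ Ω) (hb : Bornology.IsBounded Ω)
    (hne : Ω.Nonempty) (hs : StrictConvex ℝ (closure Ω))
    (a : ℂ) (b : ℕ → ℂ) (N : ℕ) (ha : a ≠ 0)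
    (hf : frontier Ω = lau a b N '' Metric.sphere 0 1)
    (hr : ∀ z : ℂ, ‖z‖ = 1 → deriv (lau a b N) z ≠ 0)
    (h : (∃ 𝒦 U, CausticCollar Ω 𝒦 U) ∨
      ∃ n : ℕ, 0 < n ∧ {P : ℤ → ℂ | Polygon Ω n P}.Infinite) :
    IsEllipse (frontier Ω) :=
  birkhoff_exterior Ω hΩ hc hb hne hs a b N ha hf hr h
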