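import Pool.Agent.H719R3.BA.PolyA

/-!
# MP_aa14e2_an: one rational caustic forces a circle, for tables with polynomial Riemann map

`Ω ⊂ ℂ` is a bounded strictly convex domain whose boundary is the image of the unit circle under a
polynomial `R`, injective on the closed unit disc with `R' ≠ 0` there (so `R` is the conformal map
of the disc onto `Ω`).  The degree of `R` is arbitrary.

If for a single `n` there are infinitely many closed billiard polygons with `n` vertices
(`Polygon`), for instance if the billiard map has one rotational invariant circle of rotation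
number `p / n`, then the boundary is a circle.
-/

open Pool.Agent.H719R3.BA Pool.Agent.H719R3.BG Polynomial

theorem Pool.Agent.Results.MP_aa14e2_an.PolynomialRiemannMap.result
    (Ω : Set ℂ) (hΩ : IsOpen Ω) (hc : Convex ℝ Ω) (hb : Bornology.IsBounded Ω)
    (hne : Ω.Nonempty) (hs : StrictConvex ℝ (closure Ω))
    (R : ℂ[X]) (hinj : Set.InjOn (fun z => R.eval z) (Metric.closedBall 0 1))
    (hder : ∀ z ∈ Metric.closedBall (0 : ℂ) 1, (derivative R).eval z ≠ 0)
    (hf : frontier Ω = (fun z => R.eval z) '' Metric.sphere 0 1)
    (n : ℕ) (hn : 0 < n) (h : {P : ℤ → ℂ | Polygon Ω n P}.Infinite) :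
    ∃ (c : ℂ) (r : ℝ), 0 < r ∧ frontier Ω = Metric.sphere c r :=
  birkhoff_interior Ω hΩ hc hb hne hs R hinj hder hf (Or.inr ⟨n, hn, h⟩)
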