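import Pool.Agent.H283R2.BK.Fin

/-!
# Rotational invariant circles of all rotation numbers up to 1/3 force an ellipse

Project BK (helper283), with helpers 9, 15, 21, 87, 89, 113, 143, 156, 188, 204, 231, 294, 315,
325, 382, 418, 472, 473, 502, 519, 535, 553, 571, 578, 595, 605, 721, 724, 745, 760, 844, 858,
942, 959.
-/

open Complex Set

namespace Pool.Agent.Results.MP_aa14e2_an.RationalCircles

/-- A strictly convex billiard table with `C²` boundary `γ`, parametrised counterclockwise by
arclength, of length `L`: every other boundary point lies strictly to the left of the tangent at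
`γ s`.  The curvature may vanish. -/
structure Table (γ : ℝ → ℂ) (L : ℝ) : Prop where
  pos : 0 < L
  smooth : ContDiff ℝ 2 γ
  unit : ∀ s, ‖deriv γ s‖ = 1
  per : ∀ s, γ (s + L) = γ s
  conv : ∀ s t, s < t → t < s + L → 0 < ((starRingEnd ℂ) (deriv γ s) * (γ t - γ s)).im

/-- cosine of the angle between the chord from `γ a` to `γ b` and the tangent at its end `γ b` -/
noncomputable def Cin (γ : ℝ → ℂ) (a b : ℝ) : ℝ :=
  ((starRingEnd ℂ) (deriv γ b) * (γ b - γ a)).re / ‖γ b - γ a‖

/-- cosine of the angle between the chord from `γ a` to `γ b` and the tangent at its start `γ a` -/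
noncomputable def Cout (γ : ℝ → ℂ) (a b : ℝ) : ℝ :=
  ((starRingEnd ℂ) (deriv γ a) * (γ b - γ a)).re / ‖γ b - γ a‖

/-- `z` is a billiard trajectory, given by lifted arclength parameters of its reflection points:
at each of them the angles with the tangent are equal. -/
def IsOrbit (γ : ℝ → ℂ) (L : ℝ) (z : ℕ → ℝ) : Prop :=
  ∀ n, z n < z (n + 1) ∧ z (n + 1) < z n + L ∧
    Cin γ (z n) (z (n + 1)) = Cout γ (z (n + 1)) (z (n + 2))

/-- A rotational invariant circle of rotation number `p / q`.  Points of the phase annulus are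
oriented chords, from `γ (x t)` to `γ (y t)`; the circle is a simple closed curve `t ↦ (x t, y t)`
in it that winds once around it, all of whose points are periodic with rotation number `p / q`: the
trajectory closes up after `q` reflections, during which the reflection points travel `p` times
around `γ`. -/
structure RotCircle (γ : ℝ → ℂ) (L : ℝ) (p q : ℕ) (x y : ℝ → ℝ) : Prop where
  cx : Continuous x
  cy : Continuous y
  px : ∀ t, x (t + 1) = x t + L
  py : ∀ t, y (t + 1) = y t + L
  lo : ∀ t, x t < y t
  hi : ∀ t, y t < x t + L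
  inj : ∀ t t', x t = x t' → y t = y t' → t = t'
  orb : ∀ t, ∃ z : ℕ → ℝ, IsOrbit γ L z ∧ z 0 = x t ∧ z 1 = y t ∧ ∀ n, z (n + q) = z n + p * L

/-- If a strictly convex billiard table with `C²` boundary has, for every rational number
`p / q` in `(0, 1/3]`, a rotational invariant circle of rotation number `p / q`, then its boundary
is an ellipse. -/
theorem result : ∀ (γ : ℝ → ℂ) (L : ℝ), Table γ L →
    (∀ p q : ℕ, 0 < p → 3 * p ≤ q → Nat.Coprime p q → ∃ x y : ℝ → ℝ, RotCircle γ L p q x y) →
    ∃ (c : ℂ) (a b d : ℝ), 0 < a ∧ 0 < a * d - b ^ 2 ∧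
      Set.range γ = {x : ℂ | a * (x.re - c.re) ^ 2 + 2 * b * (x.re - c.re) * (x.im - c.im)
        + d * (x.im - c.im) ^ 2 = 1} := by
  intro γ L hT hr
  refine H283R2.BK.final_rat γ L ⟨hT.pos, hT.smooth, hT.unit, hT.per, hT.conv⟩ ?_
  intro p q h1 h2 h3
  obtain ⟨x, y, h⟩ := hr p q h1 h2 h3
  exact ⟨x, y, h.cx, h.cy, h.px, h.py, h.lo, h.hi, h.inj, h.orb⟩

end Pool.Agent.Results.MP_aa14e2_an.RationalCircles
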